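import Pool.Agent.Run7.h415.MQP.One

set_option autoImplicit false

/-!
# Montgomery's `ℓ^q` conjecture for products of short Dirichlet polynomials

The inequality of Q1 for Dirichlet polynomials whose coefficients are (absolutely convex combinations
of) Dirichlet convolutions of `J` sequences `c_1, ..., c_J`, `c_j` supported on `[1, M_j]`,
`∏ M_j ≤ 2 N`, with the loss `L^(1/4)`, `L = max M_j`, for every real `q ≥ 2` and every `T`; and with
no loss besides `N^ε` when the `M_j` are equal and `q` is a multiple of `2 / J` (for `J = 2`: every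
integer `q`). In terms of the square norms of the `c_j` instead of sup norms.
-/

namespace Pool.Agent.Results.MP_2a1f0e_nt.FactorablePolynomials

open Finset Run7.h415.MQP
open Pool.Agent.W200.MR (pw)

lemma hull (m : ℕ) (w z : Fin m → ℂ) (q : ℝ) (hq : 1 ≤ q) (hw : ∑ i, ‖w i‖ ≤ 1) :
    ‖∑ i, w i * z i‖ ^ q ≤ ∑ i, ‖w i‖ * ‖z i‖ ^ q := by
  have hq0 : 0 < q := by linarith
  have h1 : ‖∑ i, w i * z i‖ ≤ ∑ i, ‖w i‖ * ‖z i‖ := by
    refine (norm_sum_le _ _).trans (le_of_eq ?_)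
    exact sum_congr rfl fun i _ => norm_mul _ _
  obtain ⟨ω, hω⟩ : ∃ ω : ℝ, ω = ∑ i, ‖w i‖ := ⟨_, rfl⟩
  have hω0 : 0 ≤ ω := by rw [hω]; exact sum_nonneg fun _ _ => norm_nonneg _
  have hS0 : 0 ≤ ∑ i, ‖w i‖ * ‖z i‖ ^ q := sum_nonneg fun _ _ => by positivity
  rcases hω0.eq_or_lt with h0 | h0
  · have hz : ∀ i, ‖w i‖ = 0 := by
      intro i
      have := (sum_eq_zero_iff_of_nonneg (s := (univ : Finset (Fin m)))
        (f := fun i => ‖w i‖) (fun _ _ => norm_nonneg _)).1 (by rw [← hω, ← h0])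
      exact this i (mem_univ i)
    have h2 : ∑ i, ‖w i‖ * ‖z i‖ = 0 := sum_eq_zero fun i _ => by rw [hz i, zero_mul]
    rw [h2] at h1
    rw [le_antisymm h1 (norm_nonneg _), Real.zero_rpow hq0.ne']
    exact hS0
  · have h3 := Real.rpow_arith_mean_le_arith_mean_rpow (univ : Finset (Fin m))
      (fun i => ‖w i‖ / ω) (fun i => ‖z i‖) (fun _ _ => by positivity)
      (by rw [← sum_div, ← hω, div_self h0.ne']) (fun _ _ => norm_nonneg _) hq
    have h4 : ∑ i, ‖w i‖ * ‖z i‖ = ω * ∑ i, ‖w i‖ / ω * ‖z i‖ := by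
      rw [mul_sum]
      exact sum_congr rfl fun i _ => by field_simp
    have h5 : ∑ i, ‖w i‖ / ω * ‖z i‖ ^ q = (∑ i, ‖w i‖ * ‖z i‖ ^ q) / ω := by
      rw [sum_div]
      exact sum_congr rfl fun i _ => by ring
    have h6 : ω ^ q ≤ ω := by
      have := Real.rpow_le_rpow_of_exponent_ge h0 (by rw [hω]; exact hw) hq
      rwa [Real.rpow_one] at this
    calc ‖∑ i, w i * z i‖ ^ q ≤ (∑ i, ‖w i‖ * ‖z i‖) ^ q :=
          Real.rpow_le_rpow (norm_nonneg _) h1 hq0.le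
      _ = ω ^ q * (∑ i, ‖w i‖ / ω * ‖z i‖) ^ q := by
          rw [h4, Real.mul_rpow hω0 (sum_nonneg fun _ _ => by positivity)]
      _ ≤ ω ^ q * ((∑ i, ‖w i‖ * ‖z i‖ ^ q) / ω) := by
          rw [← h5]
          exact mul_le_mul_of_nonneg_left h3 (by positivity)
      _ ≤ ω * ((∑ i, ‖w i‖ * ‖z i‖ ^ q) / ω) :=
          mul_le_mul_of_nonneg_right h6 (by positivity)
      _ = ∑ i, ‖w i‖ * ‖z i‖ ^ q := mul_div_cancel₀ _ h0.ne'

lemma no_frac {J : ℕ} (M : Fin J → ℕ) (hM : ∀ j, 1 ≤ M j) (hMe : ∀ j j', M j = M j') (q : ℝ)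
    (r : ℕ) (hr : q * J = 2 * r) (y : Fin J → ℝ) (hy : Box y)
    (hs : ∑ j, Real.log (2 * M j) * y j = (q / 2 - ⌊q / 2⌋₊) * ∑ j, Real.log (2 * M j))
    (hc : (frac y).card ≤ 1) (j : Fin J) (hj : j ∈ frac y) : False := by
  classical
  have hl : ∀ i, Real.log (2 * M i) = Real.log (2 * M j) := fun i => by rw [hMe i j]
  have hl0 : 0 < Real.log (2 * M j) := by
    apply Real.log_pos
    have : (1 : ℝ) ≤ M j := by exact_mod_cast hM j
    linarith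
  simp only [hl] at hs
  rw [← mul_sum, sum_const, card_univ, Fintype.card_fin, nsmul_eq_mul] at hs
  have h1 : ∑ i, y i = (q / 2 - ⌊q / 2⌋₊) * J := by
    have : Real.log (2 * M j) * ∑ i, y i = Real.log (2 * M j) * ((q / 2 - ⌊q / 2⌋₊) * J) := by
      rw [hs]; ring
    exact mul_left_cancel₀ hl0.ne' this
  have hj' : y j ≠ 0 ∧ y j ≠ 1 := by simpa [frac] using hj
  have hj0 : 0 < y j := lt_of_le_of_ne (hy j).1 hj'.1.symm
  have hj1 : y j < 1 := lt_of_le_of_ne (hy j).2 hj'.2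
  have hoth : ∀ i, i ≠ j → y i = 0 ∨ y i = 1 := by
    intro i hij
    by_contra hcon
    rw [not_or] at hcon
    have hi : i ∈ frac y := by simp only [frac, mem_filter, mem_univ, true_and]; exact hcon
    exact hij (card_le_one.1 hc i hi j hj)
  have h2 := add_sum_erase univ y (mem_univ j)
  have h3 : ∑ i ∈ univ.erase j, y i =
      ((∑ i ∈ univ.erase j, (if y i = 1 then (1 : ℤ) else 0) : ℤ) : ℝ) := by
    push_cast
    refine sum_congr rfl fun i hi => ?_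
    rcases hoth i (ne_of_mem_erase hi) with h | h
    · rw [h, if_neg (by norm_num)]
    · rw [h, if_pos rfl]
  obtain ⟨z, hz⟩ : ∃ z : ℤ, z = ∑ i ∈ univ.erase j, (if y i = 1 then (1 : ℤ) else 0) := ⟨_, rfl⟩
  rw [← hz] at h3
  have h4 : y j = (((r : ℤ) - (⌊q / 2⌋₊ : ℤ) * J - z : ℤ) : ℝ) := by
    push_cast
    have : y j = ∑ i, y i - z := by rw [← h2, h3]; ring
    rw [this, h1]
    have : q / 2 * J = r := by linarith
    linear_combination this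
  rw [h4] at hj0 hj1
  have h5 : 0 < (r : ℤ) - (⌊q / 2⌋₊ : ℤ) * J - z := by exact_mod_cast hj0
  have h6 : (r : ℤ) - (⌊q / 2⌋₊ : ℤ) * J - z < 1 := by exact_mod_cast hj1
  omega

theorem result (J : ℕ) (q ε : ℝ) (hq : 2 ≤ q) (hε : 0 < ε) :
    ∃ K : ℝ, ∀ (N T : ℕ) (L G : ℝ) (m : ℕ) (w : Fin m → ℂ) (M : Fin m → Fin J → ℕ)
      (c : Fin m → Fin J → ℕ → ℂ) (b : ℕ → ℂ),
      1 ≤ N → 1 ≤ L → 0 ≤ G → ∑ i, ‖w i‖ ≤ 1 →
      (∀ i j, 1 ≤ M i j) → (∀ i j, (M i j : ℝ) ≤ L) → (∀ i, ∏ j, M i j ≤ 2 * N) →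
      (∀ i, ∏ j, ∑ n ∈ Icc 1 (M i j), ‖c i j n‖ ^ 2 ≤ G) →
      (∀ n ∈ Icc N (2 * N), b n = ∑ i, w i *
        ∑ f ∈ (Fintype.piFinset fun j => Icc 1 (M i j)).filter (fun f => ∏ j, f j = n),
          ∏ j, c i j (f j)) →
      (∑ t ∈ Icc 1 T, ‖∑ n ∈ Icc N (2 * N),
            b n * Complex.exp (Complex.I * (t : ℂ) * ((Real.log (n : ℝ) : ℝ) : ℂ))‖ ^ q
          ≤ K * (N : ℝ) ^ ε * L ^ ((1 : ℝ) / 4) * (G ^ (q / 2) * ((N : ℝ) ^ (q / 2) + T))) ∧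
      ((∃ r : ℕ, q * J = 2 * r) → (∀ i j j', M i j = M i j') →
        ∑ t ∈ Icc 1 T, ‖∑ n ∈ Icc N (2 * N),
            b n * Complex.exp (Complex.I * (t : ℂ) * ((Real.log (n : ℝ) : ℝ) : ℂ))‖ ^ q
          ≤ K * (N : ℝ) ^ ε * (G ^ (q / 2) * ((N : ℝ) ^ (q / 2) + T))) := by
  obtain ⟨K, hK0, hK⟩ := one J q ε hq hε
  refine ⟨2 * K, ?_⟩
  intro N T L G m w M c b hN hL hG hw hM hML hMN hMG hb
  have key : ∀ R : ℝ, 1 ≤ R → (∀ i, ∀ y : Fin J → ℝ, Box y → ∑ j, Real.log (2 * M i j) * y j =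
        (q / 2 - ⌊q / 2⌋₊) * ∑ j, Real.log (2 * M i j) →
        (frac y).card ≤ 1 → ∀ j ∈ frac y, (2 * (M i j : ℝ)) ^ (y j * (1 - y j)) ≤ R) →
      ∑ t ∈ Icc 1 T, ‖∑ n ∈ Icc N (2 * N),
            b n * Complex.exp (Complex.I * (t : ℂ) * ((Real.log (n : ℝ) : ℝ) : ℂ))‖ ^ q
          ≤ K * (N : ℝ) ^ ε * R * G ^ (q / 2) * ((N : ℝ) ^ (q / 2) + T) := by
    intro R hR hRy
    have h1 : ∀ t ∈ Icc 1 T, ‖∑ n ∈ Icc N (2 * N),
            b n * Complex.exp (Complex.I * (t : ℂ) * ((Real.log (n : ℝ) : ℝ) : ℂ))‖ ^ q ≤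
        ∑ i, ‖w i‖ * ‖∑ n ∈ Icc N (2 * N), cvf (M i) (c i) n * pw (t : ℝ) n‖ ^ q := by
      intro t _
      have e : ∑ n ∈ Icc N (2 * N),
            b n * Complex.exp (Complex.I * (t : ℂ) * ((Real.log (n : ℝ) : ℝ) : ℂ)) =
          ∑ i, w i * ∑ n ∈ Icc N (2 * N), cvf (M i) (c i) n * pw (t : ℝ) n := by
        simp only [mul_sum]
        rw [sum_comm]
        refine sum_congr rfl fun n hn => ?_
        rw [hb n hn, sum_mul]
        refine sum_congr rfl fun i _ => ?_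
        have e2 : Complex.exp (Complex.I * (t : ℂ) * ((Real.log (n : ℝ) : ℝ) : ℂ)) =
            pw (t : ℝ) n := by
          unfold Pool.Agent.W200.MR.pw
          congr 1
          push_cast
          ring
        rw [e2, mul_assoc]
        rfl
      rw [e]
      exact hull m w _ q (by linarith) hw
    have h2 : ∀ i, ∑ t ∈ Icc 1 T, ‖∑ n ∈ Icc N (2 * N), cvf (M i) (c i) n * pw (t : ℝ) n‖ ^ q ≤
        K * (N : ℝ) ^ ε * R * G ^ (q / 2) * ((N : ℝ) ^ (q / 2) + T) := fun i =>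
      hK N T R G (M i) (c i) hN hR hG (hM i) (hMN i) (hMG i) (hRy i)
    have h3 : 0 ≤ K * (N : ℝ) ^ ε * R * G ^ (q / 2) * ((N : ℝ) ^ (q / 2) + T) := by
      have : 0 ≤ R := by linarith
      positivity
    calc _ ≤ ∑ t ∈ Icc 1 T, ∑ i, ‖w i‖ *
          ‖∑ n ∈ Icc N (2 * N), cvf (M i) (c i) n * pw (t : ℝ) n‖ ^ q := sum_le_sum h1
      _ = ∑ i, ‖w i‖ * ∑ t ∈ Icc 1 T,
          ‖∑ n ∈ Icc N (2 * N), cvf (M i) (c i) n * pw (t : ℝ) n‖ ^ q := by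
          rw [sum_comm]
          exact sum_congr rfl fun i _ => by rw [mul_sum]
      _ ≤ ∑ i, ‖w i‖ * (K * (N : ℝ) ^ ε * R * G ^ (q / 2) * ((N : ℝ) ^ (q / 2) + T)) :=
          sum_le_sum fun i _ => mul_le_mul_of_nonneg_left (h2 i) (norm_nonneg _)
      _ = (∑ i, ‖w i‖) * (K * (N : ℝ) ^ ε * R * G ^ (q / 2) * ((N : ℝ) ^ (q / 2) + T)) := by
          rw [sum_mul]
      _ ≤ 1 * (K * (N : ℝ) ^ ε * R * G ^ (q / 2) * ((N : ℝ) ^ (q / 2) + T)) :=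
          mul_le_mul_of_nonneg_right hw h3
      _ = _ := one_mul _
  have hNq : 0 ≤ K * (N : ℝ) ^ ε * (G ^ (q / 2) * ((N : ℝ) ^ (q / 2) + T)) := by positivity
  constructor
  · have h2L : (1 : ℝ) ≤ 2 * L := by linarith
    have h1 := key ((2 * L) ^ ((1 : ℝ) / 4)) (Real.one_le_rpow h2L (by norm_num)) (by
      intro i y hy _ _ j _
      have h2 : (1 : ℝ) ≤ 2 * (M i j : ℝ) := by
        have : (1 : ℝ) ≤ M i j := by exact_mod_cast hM i j
        linarith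
      have h3 : y j * (1 - y j) ≤ 1 / 4 := by nlinarith [sq_nonneg (y j - 1 / 2)]
      calc (2 * (M i j : ℝ)) ^ (y j * (1 - y j)) ≤ (2 * (M i j : ℝ)) ^ ((1 : ℝ) / 4) :=
            Real.rpow_le_rpow_of_exponent_le h2 h3
        _ ≤ (2 * L) ^ ((1 : ℝ) / 4) :=
            Real.rpow_le_rpow (by linarith) (by linarith [hML i j]) (by norm_num))
    have h4 : (2 * L) ^ ((1 : ℝ) / 4) ≤ 2 * L ^ ((1 : ℝ) / 4) := by
      rw [Real.mul_rpow (by norm_num) (by linarith)]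
      apply mul_le_mul_of_nonneg_right _ (Real.rpow_nonneg (by linarith) _)
      calc (2 : ℝ) ^ ((1 : ℝ) / 4) ≤ 2 ^ (1 : ℝ) :=
            Real.rpow_le_rpow_of_exponent_le (by norm_num) (by norm_num)
        _ = 2 := Real.rpow_one 2
    refine h1.trans ?_
    calc K * (N : ℝ) ^ ε * (2 * L) ^ ((1 : ℝ) / 4) * G ^ (q / 2) * ((N : ℝ) ^ (q / 2) + T)
        = (2 * L) ^ ((1 : ℝ) / 4) * (K * (N : ℝ) ^ ε * (G ^ (q / 2) * ((N : ℝ) ^ (q / 2) + T))) := by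
          ring
      _ ≤ 2 * L ^ ((1 : ℝ) / 4) * (K * (N : ℝ) ^ ε * (G ^ (q / 2) * ((N : ℝ) ^ (q / 2) + T))) :=
          mul_le_mul_of_nonneg_right h4 hNq
      _ = _ := by ring
  · rintro ⟨r, hr⟩ hMe
    have h1 := key 1 le_rfl (by
      intro i y hy hs hc j hj
      exact (no_frac (M i) (hM i) (hMe i) q r hr y hy hs hc j hj).elim)
    refine h1.trans ?_
    calc K * (N : ℝ) ^ ε * 1 * G ^ (q / 2) * ((N : ℝ) ^ (q / 2) + T)
        = K * (N : ℝ) ^ ε * (G ^ (q / 2) * ((N : ℝ) ^ (q / 2) + T)) := by ring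
      _ ≤ 2 * (K * (N : ℝ) ^ ε * (G ^ (q / 2) * ((N : ℝ) ^ (q / 2) + T))) := by linarith
      _ = _ := by ring

end Pool.Agent.Results.MP_2a1f0e_nt.FactorablePolynomials
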