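import Mathlib
import Pool.Agent.Run7.h175.MV.Core

set_option autoImplicit false

/-!
# The `ℓ^q` inequality for almost all polynomial twists, all exponents at once

Let `|b_n| ≤ 1`. For a polynomial `f` without constant term, of degree at most `d` and with
coefficients in `{0, ..., Q - 1}`, `Q ≥ (d + 1) (2 N)^d`, put
`D_f(t) = ∑_{N ≤ n ≤ 2N} b_n e(f(n) / Q) n^{it}`. For all but at most `N^{-η} Q^d` of the `Q^d`
polynomials `f` the following holds for all integers `T ∈ [N, N^A]` and all real `q > 0` at once: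

* if `q ≤ 2 (d + 1)`, then `∑_{t ≤ T} |D_f(t)|^q ≤ C N^{(η + ε) q / (2 (d + 1))} T N^{q/2}`;
* if `q ≥ 2 (d + 1)`, then `∑_{t ≤ T} |D_f(t)|^q ≤ 2^q C N^{η + ε} T N^{q - (d + 1)}`;
* if `T ≤ N^{d + 1}`, then `∑_{t ≤ T} |D_f(t)|^q ≤ 2^q C N^{η + ε} (N^q + T N^{q/2})`.
-/

namespace Pool.Agent.Results.MP_2a1f0e_nt.PolynomialTwistsAllExponents

open Finset

/-- `e(f(n)/Q)` for the polynomial `f = f_0 X + f_1 X^2 + ... + f_{d-1} X^d`. -/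
noncomputable def phase (Q : ℕ) {d : ℕ} (f : Fin d → Fin Q) (n : ℕ) : ℂ :=
  Complex.exp (2 * Real.pi * Complex.I * ((∑ j, ((f j).val : ℂ) * (n : ℂ) ^ (j.val + 1)) / Q))

/-- The twisted Dirichlet polynomial `D_f(t) = ∑_{N ≤ n ≤ 2N} b_n e(f(n)/Q) n^{it}`. -/
noncomputable def D (Q : ℕ) {d : ℕ} (N : ℕ) (b : ℕ → ℂ) (f : Fin d → Fin Q) (t : ℝ) : ℂ :=
  ∑ n ∈ Icc N (2 * N),
    b n * phase Q f n * Complex.exp (Complex.I * (t : ℂ) * ((Real.log (n : ℝ) : ℝ) : ℂ))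

lemma D_eq (Q d N : ℕ) (hN : 1 ≤ N) (b : ℕ → ℂ) (f : Fin d → Fin Q) (t : ℝ) :
    D Q N b f t = Run7.h175.MV.DD Q d (2 * N) (Run7.h175.MV.dy N b) f t := by
  rw [Run7.h175.MV.DD_dy Q d N hN]
  rfl

theorem result (d : ℕ) (A ε : ℝ) (hε : 0 < ε) :
    ∃ C : ℝ, 1 ≤ C ∧ ∀ N Q : ℕ, 1 ≤ N → (d + 1) * (2 * N) ^ d ≤ Q →
      ∀ b : ℕ → ℂ, (∀ n, ‖b n‖ ≤ 1) → ∀ η : ℝ, 0 ≤ η →
        ∃ E : Finset (Fin d → Fin Q), (E.card : ℝ) ≤ (N : ℝ) ^ (-η) * (Q : ℝ) ^ d ∧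
          ∀ f ∉ E, ∀ T : ℕ, N ≤ T → (T : ℝ) ≤ (N : ℝ) ^ A → ∀ q : ℝ, 0 < q →
            (q ≤ 2 * (d + 1) → ∑ t ∈ Icc 1 T, ‖D Q N b f (t : ℝ)‖ ^ q ≤
              C * (N : ℝ) ^ ((η + ε) * (q / (2 * (d + 1)))) * T * (N : ℝ) ^ (q / 2)) ∧
            (2 * (d + 1) ≤ q → ∑ t ∈ Icc 1 T, ‖D Q N b f (t : ℝ)‖ ^ q ≤
              2 ^ q * C * (N : ℝ) ^ (η + ε) * T * (N : ℝ) ^ (q - (d + 1))) ∧
            ((T : ℝ) ≤ (N : ℝ) ^ (d + 1) → ∑ t ∈ Icc 1 T, ‖D Q N b f (t : ℝ)‖ ^ q ≤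
              2 ^ q * C * (N : ℝ) ^ (η + ε) * ((N : ℝ) ^ q + (N : ℝ) ^ (q / 2) * T)) := by
  obtain ⟨C, hC, h⟩ := Run7.h175.MV.coreN d A ε hε
  have hC0 : 0 < C := by linarith
  refine ⟨C, hC, ?_⟩
  intro N Q hN hQ b hb η hη
  have hNr1 : (1 : ℝ) ≤ (N : ℝ) := by exact_mod_cast hN
  have hNr : (0 : ℝ) < (N : ℝ) := by linarith
  obtain ⟨E, hE1, hE2⟩ := h N Q hN hQ b hb ((N : ℝ) ^ η) (Real.rpow_pos_of_pos hNr _)
  refine ⟨E, ?_, ?_⟩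
  · rw [Real.rpow_neg hNr.le, inv_mul_eq_div, le_div_iff₀ (Real.rpow_pos_of_pos hNr _)]
    exact hE1
  intro f hf T hT1 hT2 q hq
  have hT1r : (N : ℝ) ≤ (T : ℝ) := by exact_mod_cast hT1
  have hT0 : (0 : ℝ) < (T : ℝ) := by linarith
  have h1 : ∑ t ∈ Icc 1 T, ‖D Q N b f (t : ℝ)‖ ^ (2 * (d + 1)) ≤
      C * (N : ℝ) ^ (η + ε) * T * (N : ℝ) ^ (d + 1) := by
    have h2 := hE2 f hf T hT1r hT2 ((Icc 1 T).image fun t : ℕ => (t : ℝ)) (by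
      intro t ht
      rw [Finset.mem_image] at ht
      obtain ⟨u, hu, rfl⟩ := ht
      rw [Finset.mem_Icc] at hu
      exact ⟨Nat.cast_nonneg _, by exact_mod_cast hu.2⟩) (by
      intro t ht u hu htu
      rw [Finset.mem_image] at ht hu
      obtain ⟨t', _, rfl⟩ := ht
      obtain ⟨u', _, rfl⟩ := hu
      have h2 : (t' : ℤ) ≠ (u' : ℤ) := fun h => htu (by exact_mod_cast h)
      have h3 : 1 ≤ |(t' : ℤ) - (u' : ℤ)| := Int.one_le_abs (sub_ne_zero.mpr h2)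
      exact_mod_cast h3)
    rw [Finset.sum_image (fun t _ u _ htu => Nat.cast_injective htu)] at h2
    simp only [← D_eq Q d N hN] at h2
    rw [Real.rpow_add hNr]
    refine h2.trans (le_of_eq ?_)
    ring
  have h1' : ∑ t ∈ Icc 1 T, ‖D Q N b f (t : ℝ)‖ ^ (2 * ((d : ℝ) + 1)) ≤
      C * (N : ℝ) ^ (η + ε) * T * (N : ℝ) ^ ((d : ℝ) + 1) := by
    have e1 : (2 * ((d : ℝ) + 1)) = ((2 * (d + 1) : ℕ) : ℝ) := by push_cast; ring
    have e2 : ((d : ℝ) + 1) = ((d + 1 : ℕ) : ℝ) := by push_cast; ring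
    rw [e1, e2, Real.rpow_natCast]
    simp only [Real.rpow_natCast]
    exact h1
  have hd1 : (0 : ℝ) < d + 1 := by positivity
  have hp : (0 : ℝ) < 2 * (d + 1) := by positivity
  have hcard : (((Icc 1 T).card : ℕ) : ℝ) ≤ (T : ℝ) := by
    rw [Nat.card_Icc]
    simp
  have hi : q ≤ 2 * (d + 1) → ∑ t ∈ Icc 1 T, ‖D Q N b f (t : ℝ)‖ ^ q ≤
      C * (N : ℝ) ^ ((η + ε) * (q / (2 * (d + 1)))) * T * (N : ℝ) ^ (q / 2) := by
    intro hqp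
    have h3 := Run7.h175.MV.pmean (Icc 1 T) (fun t => ‖D Q N b f (t : ℝ)‖)
      (fun t _ => norm_nonneg _) hq hqp hT0.le hcard h1'
    refine h3.trans ?_
    have hθ0 : 0 < q / (2 * (d + 1)) := by positivity
    have hθ1 : q / (2 * (d + 1)) ≤ 1 := by
      rw [div_le_one hp]
      exact hqp
    rw [Real.mul_rpow (by positivity) (by positivity), Real.mul_rpow (by positivity) hT0.le,
      Real.mul_rpow hC0.le (by positivity), ← Real.rpow_mul hNr.le, ← Real.rpow_mul hNr.le]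
    have e1 : ((d : ℝ) + 1) * (q / (2 * (d + 1))) = q / 2 := by field_simp
    have e2 : (T : ℝ) ^ (1 - q / (2 * (d + 1))) * (T : ℝ) ^ (q / (2 * (d + 1))) = T := by
      rw [← Real.rpow_add hT0]
      simp
    have e3 : C ^ (q / (2 * (d + 1))) ≤ C := by
      calc C ^ (q / (2 * (d + 1))) ≤ C ^ (1 : ℝ) := Real.rpow_le_rpow_of_exponent_le hC hθ1
        _ = C := Real.rpow_one C
    rw [e1]
    calc (T : ℝ) ^ (1 - q / (2 * (d + 1))) * (C ^ (q / (2 * (d + 1))) *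
          (N : ℝ) ^ ((η + ε) * (q / (2 * (d + 1)))) * (T : ℝ) ^ (q / (2 * (d + 1))) *
          (N : ℝ) ^ (q / 2))
        = C ^ (q / (2 * (d + 1))) * (N : ℝ) ^ ((η + ε) * (q / (2 * (d + 1)))) *
          ((T : ℝ) ^ (1 - q / (2 * (d + 1))) * (T : ℝ) ^ (q / (2 * (d + 1)))) *
          (N : ℝ) ^ (q / 2) := by ring
      _ = C ^ (q / (2 * (d + 1))) * (N : ℝ) ^ ((η + ε) * (q / (2 * (d + 1)))) * T *
          (N : ℝ) ^ (q / 2) := by rw [e2]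
      _ ≤ C * (N : ℝ) ^ ((η + ε) * (q / (2 * (d + 1)))) * T * (N : ℝ) ^ (q / 2) := by gcongr
  have hii : 2 * (d + 1) ≤ q → ∑ t ∈ Icc 1 T, ‖D Q N b f (t : ℝ)‖ ^ q ≤
      2 ^ q * C * (N : ℝ) ^ (η + ε) * T * (N : ℝ) ^ (q - (d + 1)) := by
    intro hqp
    have h3 : ∀ t ∈ Icc 1 T, ‖D Q N b f (t : ℝ)‖ ^ q ≤
        (2 * N : ℝ) ^ (q - 2 * (d + 1)) * ‖D Q N b f (t : ℝ)‖ ^ (2 * ((d : ℝ) + 1)) := by
      intro t _
      have h4 : ‖D Q N b f (t : ℝ)‖ ≤ 2 * N := by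
        rw [D_eq Q d N hN]
        have := Run7.h175.MV.norm_DD_le Q d (2 * N) (Run7.h175.MV.dy N b)
          (Run7.h175.MV.dy_le N b hb) f (t : ℝ)
        push_cast at this
        exact this
      have h5 : ‖D Q N b f (t : ℝ)‖ ^ q =
          ‖D Q N b f (t : ℝ)‖ ^ (q - 2 * (d + 1)) * ‖D Q N b f (t : ℝ)‖ ^ (2 * ((d : ℝ) + 1)) := by
        rw [← Real.rpow_add_of_nonneg (norm_nonneg _) (by linarith) hp.le]
        congr 1
        ring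
      rw [h5]
      refine mul_le_mul_of_nonneg_right ?_ (Real.rpow_nonneg (norm_nonneg _) _)
      exact Real.rpow_le_rpow (norm_nonneg _) h4 (by linarith)
    refine (Finset.sum_le_sum h3).trans ?_
    rw [← Finset.mul_sum]
    refine (mul_le_mul_of_nonneg_left h1' (by positivity)).trans ?_
    rw [Real.mul_rpow (by norm_num) hNr.le]
    have e1 : (N : ℝ) ^ (q - 2 * (d + 1)) * (N : ℝ) ^ ((d : ℝ) + 1) = (N : ℝ) ^ (q - (d + 1)) := by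
      rw [← Real.rpow_add hNr]
      congr 1
      ring
    have e2 : (2 : ℝ) ^ (q - 2 * (d + 1)) ≤ 2 ^ q :=
      Real.rpow_le_rpow_of_exponent_le (by norm_num) (by linarith)
    calc (2 : ℝ) ^ (q - 2 * (d + 1)) * (N : ℝ) ^ (q - 2 * (d + 1)) *
          (C * (N : ℝ) ^ (η + ε) * T * (N : ℝ) ^ ((d : ℝ) + 1))
        = (2 : ℝ) ^ (q - 2 * (d + 1)) * C * (N : ℝ) ^ (η + ε) * T *
          ((N : ℝ) ^ (q - 2 * (d + 1)) * (N : ℝ) ^ ((d : ℝ) + 1)) := by ring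
      _ = (2 : ℝ) ^ (q - 2 * (d + 1)) * C * (N : ℝ) ^ (η + ε) * T * (N : ℝ) ^ (q - (d + 1)) := by
          rw [e1]
      _ ≤ 2 ^ q * C * (N : ℝ) ^ (η + ε) * T * (N : ℝ) ^ (q - (d + 1)) := by gcongr
  refine ⟨hi, hii, ?_⟩
  intro hTd
  have h2q : (1 : ℝ) ≤ 2 ^ q := Real.one_le_rpow (by norm_num) hq.le
  rcases le_total q (2 * (d + 1)) with hqp | hqp
  · refine (hi hqp).trans ?_
    have hθ1 : q / (2 * (d + 1)) ≤ 1 := by
      rw [div_le_one hp]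
      exact hqp
    have e1 : (N : ℝ) ^ ((η + ε) * (q / (2 * (d + 1)))) ≤ (N : ℝ) ^ (η + ε) := by
      refine Real.rpow_le_rpow_of_exponent_le hNr1 ?_
      nlinarith
    have e2 : 0 ≤ (N : ℝ) ^ q := by positivity
    calc C * (N : ℝ) ^ ((η + ε) * (q / (2 * (d + 1)))) * T * (N : ℝ) ^ (q / 2)
        ≤ C * (N : ℝ) ^ (η + ε) * T * (N : ℝ) ^ (q / 2) := by gcongr
      _ = 1 * (C * (N : ℝ) ^ (η + ε)) * ((N : ℝ) ^ (q / 2) * T) := by ring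
      _ ≤ 2 ^ q * (C * (N : ℝ) ^ (η + ε)) * ((N : ℝ) ^ q + (N : ℝ) ^ (q / 2) * T) := by
          gcongr
          linarith
      _ = 2 ^ q * C * (N : ℝ) ^ (η + ε) * ((N : ℝ) ^ q + (N : ℝ) ^ (q / 2) * T) := by ring
  · refine (hii hqp).trans ?_
    have e1 : (T : ℝ) * (N : ℝ) ^ (q - (d + 1)) ≤ (N : ℝ) ^ q := by
      have e2 : (N : ℝ) ^ q = (N : ℝ) ^ (d + 1) * (N : ℝ) ^ (q - (d + 1)) := by
        rw [← Real.rpow_natCast (N : ℝ) (d + 1), ← Real.rpow_add hNr]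
        congr 1
        push_cast
        ring
      rw [e2]
      gcongr
    have e3 : 0 ≤ (N : ℝ) ^ (q / 2) * T := by positivity
    calc 2 ^ q * C * (N : ℝ) ^ (η + ε) * T * (N : ℝ) ^ (q - (d + 1))
        = 2 ^ q * C * (N : ℝ) ^ (η + ε) * (T * (N : ℝ) ^ (q - (d + 1))) := by ring
      _ ≤ 2 ^ q * C * (N : ℝ) ^ (η + ε) * ((N : ℝ) ^ q + (N : ℝ) ^ (q / 2) * T) := by
          gcongr
          linarith

end Pool.Agent.Results.MP_2a1f0e_nt.PolynomialTwistsAllExponents
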