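import Mathlib
import Pool.Agent.Run7.h794.QT.E

/-!
# Moments of almost all quadratic twists of Dirichlet polynomials

For odd `d` let `(n/d)` be the Jacobi symbol, a real character modulo `d`. For all `A`, `B`, `D`, `q₀` and `ε > 0` there
are `K` and `C` such that for all `N ≥ 2` and every family `F` of at most `N ^ B` sequences `(b_n)` bounded by one, in EVERY interval of
length `P ≥ N ^ K` all but at most `P / N ^ B` of the odd `d` (primes or not) satisfy, with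
`D(t) = ∑_{N ≤ n ≤ 2N} b_n (n/d) e(f(n)) n ^ (it)`,

  `∑_{1 ≤ t ≤ T} |D(t)| ^ q ≤ C N ^ ε T N ^ (q / 2)`

for all real `0 ≤ q ≤ q₀`, all `T ≤ N ^ A`, all `b` in `F` and ALL real polynomials `f` of degree at most `D`: the
inequality of Montgomery's conjecture, without the term `N ^ q`.
-/

set_option autoImplicit false

namespace Pool.Agent.Results.MP_2a1f0e_nt.QuadraticTwistsAllExponents

open Finset

/-- `D(t) = ∑_{N ≤ n ≤ 2N} b_n (n/d) e(θ_0 n + ... + θ_{D-1} n ^ D) n ^ (it)`, `(n/d)` the Jacobi symbol -/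
noncomputable def poly {D : ℕ} (b : ℕ → ℂ) (d N : ℕ) (θ : Fin D → ℝ) (t : ℝ) : ℂ :=
  ∑ n ∈ Icc N (2 * N), b n * ((jacobiSym (n : ℤ) d : ℤ) : ℂ) *
    Complex.exp (2 * Real.pi * Complex.I * ∑ j, (θ j : ℂ) * (n : ℂ) ^ (j.val + 1)) * (n : ℂ) ^ ((t : ℂ) * Complex.I)

theorem result (A B D : ℕ) (q₀ : ℝ) (hq₀ : 0 ≤ q₀) (ε : ℝ) (hε : 0 < ε) : ∃ K : ℕ, ∃ C : ℝ, 0 < C ∧
    ∀ N : ℕ, 2 ≤ N → ∀ x P : ℕ, N ^ K ≤ P →
    ∀ F : Finset (ℕ → ℂ), F.card ≤ N ^ B → (∀ b ∈ F, ∀ n, ‖b n‖ ≤ 1) →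
    ∃ Bad ⊆ Ioc x (x + P), Bad.card * N ^ B ≤ P ∧ ∀ d ∈ Ioc x (x + P), Odd d → d ∉ Bad → ∀ b ∈ F,
      ∀ (θ : Fin D → ℝ) (T : ℕ), T ≤ N ^ A → ∀ q : ℝ, 0 ≤ q → q ≤ q₀ →
        ∑ t ∈ Icc 1 T, ‖poly b d N θ t‖ ^ q ≤ C * (N : ℝ) ^ ε * (T * (N : ℝ) ^ (q / 2)) := by
  classical
  set u : ℝ := ε / (q₀ + 1) with hu
  have hu0 : 0 < u := by positivity
  obtain ⟨K, C, hC, h⟩ := Pool.Agent.Run7.h794.QT.main A B D hu0
  set C₁ : ℝ := max 1 (C * 2 ^ (1 / 2 + u)) with hC₁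
  have hC₁1 : 1 ≤ C₁ := le_max_left _ _
  have hC₁0 : 0 < C₁ := by linarith
  refine ⟨2 * K, C₁ ^ q₀, by positivity, fun N hN x P hP F hF ha => ?_⟩
  have hNr : (1 : ℝ) ≤ N := by exact_mod_cast (by omega : 1 ≤ N)
  have hN0 : (0 : ℝ) < N := by linarith
  set cut : (ℕ → ℂ) → ℕ → ℂ := fun b n => if N ≤ n then b n else 0 with hcut
  have hpoly : ∀ (b : ℕ → ℂ) (d : ℕ) (θ : Fin D → ℝ) (t : ℝ),
      Pool.Agent.Run7.h794.QT.twist (cut b) d (2 * N) θ t = poly b d N θ t := by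
    intro b d θ t
    unfold Pool.Agent.Run7.h794.QT.twist poly
    have e1 : Icc N (2 * N) = (Icc 1 (2 * N)).filter (fun n => N ≤ n) := by
      ext n
      simp only [mem_Icc, mem_filter]
      omega
    rw [e1, sum_filter]
    apply sum_congr rfl
    intro n _
    simp only [hcut]
    split_ifs
    · rfl
    · simp
  have hcutb : ∀ b ∈ F, ∀ n, ‖cut b n‖ ≤ 1 := by
    intro b hb n
    simp only [hcut]
    split_ifs
    · exact ha b hb n
    · simp
  obtain ⟨Bad, h2, h3, h4⟩ := h (2 * N) (by omega) x P (by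
    calc (2 * N) ^ K ≤ (N * N) ^ K := Nat.pow_le_pow_left (Nat.mul_le_mul_right N hN) K
      _ = N ^ (2 * K) := by rw [← sq, ← pow_mul]
      _ ≤ P := hP) (F.image cut) (by
    calc (F.image cut).card ≤ F.card := card_image_le
      _ ≤ N ^ B := hF
      _ ≤ (2 * N) ^ B := Nat.pow_le_pow_left (by omega) B) (by
    intro a ha' n
    obtain ⟨b, hb, rfl⟩ := mem_image.1 ha'
    exact hcutb b hb n)
  refine ⟨Bad, h2, ?_, fun d hd hodd hdB b hb θ T hT q hq hqq => ?_⟩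
  · exact le_trans (Nat.mul_le_mul_left _ (Nat.pow_le_pow_left (by omega) B)) h3
  · have h6 : ∀ t ∈ Icc 1 T, ‖poly b d N θ t‖ ^ q ≤ C₁ ^ q₀ * (N : ℝ) ^ ε * (N : ℝ) ^ (q / 2) := by
      intro t ht
      rw [mem_Icc] at ht
      have htA : |(t : ℝ)| ≤ (N : ℝ) ^ A := by
        rw [abs_of_nonneg (Nat.cast_nonneg t)]
        exact_mod_cast ht.2.trans hT
      have h5 := h4 d hd hodd hdB (cut b) (mem_image_of_mem _ hb) (2 * N) le_rfl θ t (htA.trans (by
        push_cast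
        exact pow_le_pow_left₀ hN0.le (by linarith) A))
      rw [hpoly] at h5
      have h7 : ‖poly b d N θ t‖ ≤ C₁ * (N : ℝ) ^ (1 / 2 + u) := by
        refine h5.trans ?_
        push_cast
        rw [Real.mul_rpow (by norm_num) hN0.le, ← mul_assoc]
        exact mul_le_mul_of_nonneg_right (le_max_right _ _) (Real.rpow_nonneg hN0.le _)
      calc ‖poly b d N θ t‖ ^ q ≤ (C₁ * (N : ℝ) ^ (1 / 2 + u)) ^ q := Real.rpow_le_rpow (norm_nonneg _) h7 hq
        _ = C₁ ^ q * ((N : ℝ) ^ (u * q) * (N : ℝ) ^ (q / 2)) := by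
            rw [Real.mul_rpow hC₁0.le (by positivity), ← Real.rpow_mul hN0.le, ← Real.rpow_add hN0]
            congr 2
            ring
        _ ≤ C₁ ^ q₀ * ((N : ℝ) ^ ε * (N : ℝ) ^ (q / 2)) := by
            have g1 : C₁ ^ q ≤ C₁ ^ q₀ := Real.rpow_le_rpow_of_exponent_le hC₁1 hqq
            have g2 : (N : ℝ) ^ (u * q) ≤ (N : ℝ) ^ ε := by
              apply Real.rpow_le_rpow_of_exponent_le hNr
              rw [hu, div_mul_eq_mul_div, div_le_iff₀ (by positivity)]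
              nlinarith
            gcongr
        _ = _ := by ring
    refine (sum_le_sum h6).trans ?_
    rw [sum_const, Nat.card_Icc, Nat.add_sub_cancel, nsmul_eq_mul]
    apply le_of_eq
    ring

end Pool.Agent.Results.MP_2a1f0e_nt.QuadraticTwistsAllExponents
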